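import Pool.Agent.X125.TM.Ident

/-!
The potential `V = - ΔΨ / Ψ` with `Ψ = 1 + ∑ a_j χ_j`.
-/

noncomputable section

namespace Pool.Agent.X125.TM

open MeasureTheory Metric Set Filter Topology
open scoped ContDiff

/-- The radii. -/
def rho (j : ℕ) : ℝ := (1 / 2) ^ (j + 1)

lemma rho_pos (j : ℕ) : 0 < rho j := by unfold rho; positivity

lemma rho_le (j : ℕ) : rho j ≤ 1 / 2 := by
  unfold rho
  calc (1 / 2 : ℝ) ^ (j + 1) ≤ (1 / 2) ^ 1 := pow_le_pow_of_le_one (by norm_num) (by norm_num) (by omega)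
    _ = 1 / 2 := by norm_num

lemma rho_half {j k : ℕ} (h : j < k) : rho k ≤ rho j / 2 := by
  unfold rho
  calc (1 / 2 : ℝ) ^ (k + 1) ≤ (1 / 2) ^ (j + 1 + 1) :=
        pow_le_pow_of_le_one (by norm_num) (by norm_num) (by omega)
    _ = _ := by rw [pow_succ]; ring

lemma rho_anti {j k : ℕ} (h : j ≤ k) : rho k ≤ rho j := by
  unfold rho
  exact pow_le_pow_of_le_one (by norm_num) (by norm_num) (by omega)

/-- The centres. -/
def ctr (j : ℕ) : Pl := EuclideanSpace.single 0 (1 - rho j)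

lemma ctr_zero (j : ℕ) : ctr j 0 = 1 - rho j := by simp [ctr]

lemma norm_ctr (j : ℕ) : ‖ctr j‖ = 1 - rho j := by
  have := rho_le j
  rw [ctr, PiLp.norm_single, Real.norm_eq_abs, abs_of_nonneg (by linarith)]

lemma abs_coord_le (x y : Pl) : |x 0 - y 0| ≤ dist x y := by
  rw [dist_eq_norm, ← Real.norm_eq_abs]
  exact PiLp.norm_apply_le (x - y) 0

/-- The inner bumps. -/
def chi (j : ℕ) : ContDiffBump (ctr j) :=
  ⟨rho j / 16, rho j / 8, by have := rho_pos j; positivity, by have := rho_pos j; linarith⟩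

/-- The outer bumps. -/
def eta (j : ℕ) : ContDiffBump (ctr j) :=
  ⟨rho j / 8, rho j * (3 / 16), by have := rho_pos j; positivity, by have := rho_pos j; linarith⟩

lemma chi_ne {j : ℕ} {x : Pl} (h : chi j x ≠ 0) : dist x (ctr j) < rho j / 8 := by
  by_contra h'
  push Not at h'
  exact h ((chi j).zero_of_le_dist h')

lemma chi_coord {j : ℕ} {x : Pl} (h : chi j x ≠ 0) : 1 - 9 / 8 * rho j < x 0 ∧ x 0 < 1 - 7 / 8 * rho j := by
  have h1 := chi_ne h
  have h2 := (abs_coord_le x (ctr j)).trans_lt h1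
  rw [ctr_zero, abs_lt] at h2
  constructor <;> linarith [h2.1, h2.2]

lemma chi_disj {j k : ℕ} {x : Pl} (hx : dist x (ctr j) ≤ rho j * (3 / 16)) (hkj : k ≠ j) :
    chi k x = 0 := by
  by_contra h
  obtain ⟨h1, h2⟩ := chi_coord h
  have h3 := (abs_coord_le x (ctr j)).trans hx
  rw [ctr_zero, abs_le] at h3
  have pj := rho_pos j
  have pk := rho_pos k
  rcases lt_or_gt_of_ne hkj with hlt | hlt
  · have := rho_half hlt
    linarith [h3.1, h3.2]
  · have := rho_half hlt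
    linarith [h3.1, h3.2]

/-- The positive function `Ψ`. -/
def Psi (a : ℕ → ℝ) (x : Pl) : ℝ := 1 + ∑' j, a j * chi j x

/-- Its truncations. -/
def PsiN (a : ℕ → ℝ) (N : ℕ) (x : Pl) : ℝ := 1 + ∑ j ∈ Finset.range N, a j * chi j x

lemma psi_eq (a : ℕ → ℝ) {N : ℕ} {x : Pl} (hx : ‖x‖ < 1 - 9 / 8 * rho N) : Psi a x = PsiN a N x := by
  unfold Psi PsiN
  congr 1
  apply tsum_eq_sum
  intro j hj
  have hjN : N ≤ j := by simpa using hj
  have : chi j x = 0 := by
    by_contra h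
    have h1 := (chi_coord h).1
    have h2 : x 0 ≤ ‖x‖ := by
      calc x 0 ≤ |x 0| := le_abs_self _
        _ ≤ ‖x‖ := by rw [← Real.norm_eq_abs]; exact PiLp.norm_apply_le x 0
    have h3 := rho_anti hjN
    linarith
  rw [this, mul_zero]

lemma contDiff_PsiN (a : ℕ → ℝ) (N : ℕ) : ContDiff ℝ ∞ (PsiN a N) := by
  unfold PsiN
  apply contDiff_const.add
  apply ContDiff.sum
  intro j _
  exact contDiff_const.mul (chi j).contDiff

lemma one_le_PsiN {a : ℕ → ℝ} (ha : ∀ j, 0 ≤ a j) (N : ℕ) (x : Pl) : 1 ≤ PsiN a N x := by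
  unfold PsiN
  have : 0 ≤ ∑ j ∈ Finset.range N, a j * chi j x :=
    Finset.sum_nonneg fun j _ => mul_nonneg (ha j) (chi j).nonneg
  linarith

/-- The potential. -/
def V (a : ℕ → ℝ) (x : Pl) : ℝ := -(lap (Psi a) x / Psi a x)

lemma dd_congr {w : Pl} {f g : Pl → ℝ} {x : Pl} (h : f =ᶠ[𝓝 x] g) : dd w f =ᶠ[𝓝 x] dd w g := by
  have := h.fderiv (𝕜 := ℝ)
  filter_upwards [this] with y hy
  unfold dd
  rw [hy]

lemma lap_congr {f g : Pl → ℝ} {x : Pl} (h : f =ᶠ[𝓝 x] g) : lap f x = lap g x := by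
  unfold lap
  rw [(dd_congr (dd_congr h)).eq_of_nhds, (dd_congr (dd_congr h)).eq_of_nhds]

lemma V_eq (a : ℕ → ℝ) {N : ℕ} {x : Pl} (hx : ‖x‖ < 1 - 9 / 8 * rho N) :
    V a x = -(lap (PsiN a N) x / PsiN a N x) := by
  have hopen : IsOpen {y : Pl | ‖y‖ < 1 - 9 / 8 * rho N} := isOpen_lt continuous_norm continuous_const
  have h : Psi a =ᶠ[𝓝 x] PsiN a N := by
    filter_upwards [hopen.mem_nhds hx] with y hy
    exact psi_eq a hy
  unfold V
  rw [lap_congr h, psi_eq a hx]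

lemma exists_N {s : ℝ} (hs : s < 1) : ∃ N, s < 1 - 9 / 8 * rho N := by
  obtain ⟨n, hn⟩ := exists_pow_lt_of_lt_one (show (0 : ℝ) < (1 - s) * (8 / 9) by linarith)
    (show (1 / 2 : ℝ) < 1 by norm_num)
  refine ⟨n, ?_⟩
  have : rho n ≤ (1 / 2) ^ n := by
    unfold rho
    exact pow_le_pow_of_le_one (by norm_num) (by norm_num) (by omega)
  linarith

/-- The unit disc. -/
def Om : Set Pl := ball 0 1

lemma compact_bound {K : Set Pl} (hK : IsCompact K) (hKO : K ⊆ Om) : ∃ N, ∀ x ∈ K, ‖x‖ < 1 - 9 / 8 * rho N := by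
  rcases K.eq_empty_or_nonempty with rfl | hne
  · exact ⟨0, by simp⟩
  obtain ⟨x0, hx0, hmax⟩ := hK.exists_isMaxOn hne continuous_norm.continuousOn
  have hx1 : ‖x0‖ < 1 := by simpa [Om] using hKO hx0
  obtain ⟨N, hN⟩ := exists_N hx1
  exact ⟨N, fun x hx => (hmax hx).trans_lt hN⟩

lemma contDiffOn_V {a : ℕ → ℝ} (ha : ∀ j, 0 ≤ a j) : ContDiffOn ℝ ∞ (V a) Om := by
  intro x hx
  have hx1 : ‖x‖ < 1 := by simpa [Om] using hx
  obtain ⟨N, hN⟩ := exists_N hx1
  have hopen : IsOpen {y : Pl | ‖y‖ < 1 - 9 / 8 * rho N} := isOpen_lt continuous_norm continuous_const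
  have h : V a =ᶠ[𝓝 x] fun y => -(lap (PsiN a N) y / PsiN a N y) := by
    filter_upwards [hopen.mem_nhds hN] with y hy
    exact V_eq a hy
  have h2 : ContDiff ℝ ∞ (fun y => -(lap (PsiN a N) y / PsiN a N y)) :=
    ((contDiff_lap (contDiff_PsiN a N)).div (contDiff_PsiN a N)
      (fun y => by have := one_le_PsiN ha N y; linarith)).neg
  exact (h2.contDiffAt.congr_of_eventuallyEq h).contDiffWithinAt

/-- Test functions. -/
def Test (u : Pl → ℝ) : Prop := ContDiff ℝ ∞ u ∧ HasCompactSupport u ∧ tsupport u ⊆ Om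

/-- The quadratic form. -/
def Q (W u : Pl → ℝ) : ℝ := (∫ x in Om, ‖fderiv ℝ u x‖ ^ 2) - ∫ x in Om, W x * u x ^ 2

lemma Q_eq {a : ℕ → ℝ} (ha : ∀ j, 0 ≤ a j) {N : ℕ} {v : Pl → ℝ} (hv : ContDiff ℝ ∞ v)
    (hvc : HasCompactSupport v) (hsupp : ∀ x ∈ tsupport v, ‖x‖ < 1 - 9 / 8 * rho N) :
    Q (V a) (fun x => PsiN a N x * v x) = ∫ x, PsiN a N x ^ 2 * ‖fderiv ℝ v x‖ ^ 2 := by
  have hg := ground (contDiff_PsiN a N) hv hvc
  have hsub : tsupport (fun x => PsiN a N x * v x) ⊆ tsupport v := tsupport_mul_subset_right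
  have hOm : ∀ x, x ∉ Om → x ∉ tsupport v := by
    intro x hx h
    have h1 := hsupp x h
    apply hx
    have := rho_pos N
    simp [Om]; linarith
  have e1 : ∫ x in Om, ‖fderiv ℝ (fun x => PsiN a N x * v x) x‖ ^ 2 =
      ∫ x, ‖fderiv ℝ (fun x => PsiN a N x * v x) x‖ ^ 2 := by
    apply setIntegral_eq_integral_of_forall_compl_eq_zero
    intro x hx
    have hx2 : x ∉ tsupport (fun x => PsiN a N x * v x) := fun h => hOm x hx (hsub h)
    rw [fderiv_of_notMem_tsupport ℝ hx2]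
    simp
  have e2 : ∫ x in Om, V a x * (PsiN a N x * v x) ^ 2 = - ∫ x, lap (PsiN a N) x * (PsiN a N x * v x ^ 2) := by
    rw [setIntegral_eq_integral_of_forall_compl_eq_zero, ← integral_neg]
    · congr 1
      ext x
      by_cases hx : v x = 0
      · simp [hx]
      · have hx2 : x ∈ tsupport v := subset_tsupport v hx
        rw [V_eq a (hsupp x hx2)]
        have := one_le_PsiN ha N x
        have hne : PsiN a N x ≠ 0 := by linarith
        field_simp
    · intro x hx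
      have : v x = 0 := by
        by_contra h
        exact hOm x hx (subset_tsupport v h)
      simp [this]
  unfold Q
  rw [e1, e2, ← hg]
  ring

end Pool.Agent.X125.TM
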