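import Mathlib

/-!
The ground state identity and a Poincaré inequality in the plane.
-/

noncomputable section

namespace Pool.Agent.X125.TM

open MeasureTheory Metric Set
open scoped ContDiff

/-- The Euclidean plane. -/
abbrev Pl := EuclideanSpace ℝ (Fin 2)

/-- The standard basis. -/
def bv (i : Fin 2) : Pl := EuclideanSpace.single i 1

lemma norm_sq_dual (φ : Pl →L[ℝ] ℝ) : ‖φ‖ ^ 2 = φ (bv 0) ^ 2 + φ (bv 1) ^ 2 := by
  set y : Pl := (InnerProductSpace.toDual ℝ Pl).symm φ with hy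
  have h1 : ‖φ‖ = ‖y‖ := by rw [hy, LinearIsometryEquiv.norm_map]
  have h2 : ∀ i, φ (bv i) = y i := by
    intro i
    have : φ (bv i) = inner ℝ y (bv i) := by
      rw [hy, InnerProductSpace.toDual_symm_apply]
    rw [this, bv, EuclideanSpace.inner_single_right]
    simp
  rw [h1, EuclideanSpace.norm_sq_eq, h2, h2, Fin.sum_univ_two]
  simp

/-- The derivative in direction `w`. -/
def dd (w : Pl) (u : Pl → ℝ) (x : Pl) : ℝ := fderiv ℝ u x w

lemma contDiff_dd {w : Pl} {u : Pl → ℝ} (hu : ContDiff ℝ ∞ u) : ContDiff ℝ ∞ (dd w u) :=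
  (hu.fderiv_right (by norm_num)).clm_apply contDiff_const

lemma compact_dd {w : Pl} {u : Pl → ℝ} (hu : HasCompactSupport u) : HasCompactSupport (dd w u) := by
  have h := hu.fderiv (𝕜 := ℝ)
  exact h.comp_left (g := fun φ : Pl →L[ℝ] ℝ => φ w) (by simp)

lemma dd_mul {w : Pl} {f g : Pl → ℝ} (hf : ContDiff ℝ ∞ f) (hg : ContDiff ℝ ∞ g) (x : Pl) :
    dd w (fun y => f y * g y) x = f x * dd w g x + g x * dd w f x := by
  unfold dd
  have h1 : DifferentiableAt ℝ f x := (hf.differentiable (by simp)).differentiableAt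
  have h2 : DifferentiableAt ℝ g x := (hg.differentiable (by simp)).differentiableAt
  rw [fderiv_fun_mul h1 h2]
  simp

/-- Integration by parts. -/
lemma ibp {w : Pl} {f g : Pl → ℝ} (hf : ContDiff ℝ ∞ f) (hg : ContDiff ℝ ∞ g)
    (hfc : HasCompactSupport f) :
    ∫ x, f x * dd w g x = - ∫ x, dd w f x * g x := by
  have c1 := (contDiff_dd (w := w) hf).continuous
  have c2 := (contDiff_dd (w := w) hg).continuous
  have c3 := hf.continuous
  have c4 := hg.continuous
  apply integral_mul_fderiv_eq_neg_fderiv_mul_of_integrable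
  · exact (c1.mul c4).integrable_of_hasCompactSupport ((compact_dd hfc).mul_right)
  · exact (c3.mul c2).integrable_of_hasCompactSupport (hfc.mul_right)
  · exact (c3.mul c4).integrable_of_hasCompactSupport (hfc.mul_right)
  · exact fun x _ => (hf.differentiable (by simp)) x
  · exact fun x _ => (hg.differentiable (by simp)) x

/-- One-directional ground state identity. -/
lemma ground_dir {w : Pl} {Ψ v : Pl → ℝ} (hΨ : ContDiff ℝ ∞ Ψ) (hv : ContDiff ℝ ∞ v)
    (hvc : HasCompactSupport v) :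
    (∫ x, (dd w (fun y => Ψ y * v y) x) ^ 2) + ∫ x, dd w (dd w Ψ) x * (Ψ x * v x ^ 2) =
      ∫ x, Ψ x ^ 2 * (dd w v x) ^ 2 := by
  have hv2 : ContDiff ℝ ∞ (fun y => Ψ y * (v y * v y)) := hΨ.mul (hv.mul hv)
  have hv2c : HasCompactSupport (fun y => Ψ y * (v y * v y)) :=
    HasCompactSupport.mul_left (f := Ψ) (hvc.mul_right (f' := v))
  have h1 := ibp (w := w) hv2 (contDiff_dd (w := w) hΨ) hv2c
  have hpt : ∀ x, (dd w (fun y => Ψ y * v y) x) ^ 2 =
      Ψ x ^ 2 * (dd w v x) ^ 2 + dd w (fun y => Ψ y * (v y * v y)) x * dd w Ψ x := by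
    intro x
    rw [dd_mul hΨ hv, dd_mul hΨ (hv.mul hv), dd_mul hv hv]
    ring
  have c1 := (contDiff_dd (w := w) hv).continuous
  have c2 := (contDiff_dd (w := w) hv2).continuous
  have c3 := (contDiff_dd (w := w) hΨ).continuous
  have i1 : Integrable (fun x => Ψ x ^ 2 * (dd w v x) ^ 2) := by
    apply Continuous.integrable_of_hasCompactSupport
    · exact (hΨ.continuous.pow 2).mul (c1.pow 2)
    · apply HasCompactSupport.mul_left
      have : (fun x => (dd w v x) ^ 2) = fun x => dd w v x * dd w v x := by ext x; ring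
      rw [this]
      exact (compact_dd hvc).mul_right
  have i2 : Integrable (fun x => dd w (fun y => Ψ y * (v y * v y)) x * dd w Ψ x) :=
    (c2.mul c3).integrable_of_hasCompactSupport ((compact_dd hv2c).mul_right)
  have h2 : ∫ x, (dd w (fun y => Ψ y * v y) x) ^ 2 =
      (∫ x, Ψ x ^ 2 * (dd w v x) ^ 2) + ∫ x, dd w (fun y => Ψ y * (v y * v y)) x * dd w Ψ x := by
    rw [← integral_add i1 i2]
    congr 1
    ext x
    exact hpt x
  have h3 : ∫ x, dd w (dd w Ψ) x * (Ψ x * v x ^ 2) =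
      ∫ x, (Ψ x * (v x * v x)) * dd w (dd w Ψ) x := by
    congr 1
    ext x; ring
  rw [h2, h3, h1]
  ring

/-- The Laplacian. -/
def lap (Ψ : Pl → ℝ) (x : Pl) : ℝ := dd (bv 0) (dd (bv 0) Ψ) x + dd (bv 1) (dd (bv 1) Ψ) x

lemma contDiff_lap {Ψ : Pl → ℝ} (hΨ : ContDiff ℝ ∞ Ψ) : ContDiff ℝ ∞ (lap Ψ) :=
  (contDiff_dd (contDiff_dd hΨ)).add (contDiff_dd (contDiff_dd hΨ))

lemma integrable_dd_sq {w : Pl} {u : Pl → ℝ} (hu : ContDiff ℝ ∞ u) (huc : HasCompactSupport u) :
    Integrable (fun x => (dd w u x) ^ 2) := by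
  apply Continuous.integrable_of_hasCompactSupport
  · exact (contDiff_dd hu).continuous.pow 2
  · have : (fun x => (dd w u x) ^ 2) = fun x => dd w u x * dd w u x := by ext x; ring
    rw [this]
    exact (compact_dd huc).mul_right

lemma norm_fderiv_sq (u : Pl → ℝ) (x : Pl) :
    ‖fderiv ℝ u x‖ ^ 2 = (dd (bv 0) u x) ^ 2 + (dd (bv 1) u x) ^ 2 := norm_sq_dual _

/-- The ground state identity. -/
lemma ground {Ψ v : Pl → ℝ} (hΨ : ContDiff ℝ ∞ Ψ) (hv : ContDiff ℝ ∞ v)
    (hvc : HasCompactSupport v) :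
    (∫ x, ‖fderiv ℝ (fun y => Ψ y * v y) x‖ ^ 2) + ∫ x, lap Ψ x * (Ψ x * v x ^ 2) =
      ∫ x, Ψ x ^ 2 * ‖fderiv ℝ v x‖ ^ 2 := by
  have g0 := ground_dir (w := bv 0) hΨ hv hvc
  have g1 := ground_dir (w := bv 1) hΨ hv hvc
  have hu : ContDiff ℝ ∞ (fun y => Ψ y * v y) := hΨ.mul hv
  have huc : HasCompactSupport (fun y => Ψ y * v y) := hvc.mul_left
  have hvv : HasCompactSupport (fun x => Ψ x * v x ^ 2) := by
    have : (fun x => Ψ x * v x ^ 2) = fun x => Ψ x * (v x * v x) := by ext x; ring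
    rw [this]
    exact HasCompactSupport.mul_left (f := Ψ) (hvc.mul_right (f' := v))
  have a1 : ∫ x, ‖fderiv ℝ (fun y => Ψ y * v y) x‖ ^ 2 =
      (∫ x, (dd (bv 0) (fun y => Ψ y * v y) x) ^ 2) + ∫ x, (dd (bv 1) (fun y => Ψ y * v y) x) ^ 2 := by
    rw [← integral_add (integrable_dd_sq hu huc) (integrable_dd_sq hu huc)]
    congr 1; ext x
    exact norm_fderiv_sq _ x
  have a2 : ∫ x, lap Ψ x * (Ψ x * v x ^ 2) =
      (∫ x, dd (bv 0) (dd (bv 0) Ψ) x * (Ψ x * v x ^ 2)) +
        ∫ x, dd (bv 1) (dd (bv 1) Ψ) x * (Ψ x * v x ^ 2) := by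
    rw [← integral_add]
    · congr 1; ext x; unfold lap; ring
    · exact ((contDiff_dd (contDiff_dd hΨ)).continuous.mul
        (hΨ.continuous.mul (hv.continuous.pow 2))).integrable_of_hasCompactSupport hvv.mul_left
    · exact ((contDiff_dd (contDiff_dd hΨ)).continuous.mul
        (hΨ.continuous.mul (hv.continuous.pow 2))).integrable_of_hasCompactSupport hvv.mul_left
  have i : ∀ w : Pl, Integrable (fun x => Ψ x ^ 2 * (dd w v x) ^ 2) := by
    intro w
    apply Continuous.integrable_of_hasCompactSupport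
    · exact (hΨ.continuous.pow 2).mul ((contDiff_dd hv).continuous.pow 2)
    · apply HasCompactSupport.mul_left
      have : (fun x => (dd w v x) ^ 2) = fun x => dd w v x * dd w v x := by ext x; ring
      rw [this]
      exact (compact_dd hvc).mul_right
  have a3 : ∫ x, Ψ x ^ 2 * ‖fderiv ℝ v x‖ ^ 2 =
      (∫ x, Ψ x ^ 2 * (dd (bv 0) v x) ^ 2) + ∫ x, Ψ x ^ 2 * (dd (bv 1) v x) ^ 2 := by
    rw [← integral_add (i _) (i _)]
    congr 1; ext x
    rw [norm_fderiv_sq]; ring
  rw [a1, a2, a3, ← g0, ← g1]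
  ring

/-- The first coordinate. -/
lemma contDiff_coord : ContDiff ℝ ∞ (fun x : Pl => x 0) := by fun_prop

lemma dd_coord (x : Pl) : dd (bv 0) (fun x : Pl => x 0) x = 1 := by
  unfold dd
  have h : HasFDerivAt (fun x : Pl => x 0) (EuclideanSpace.proj (𝕜 := ℝ) (0 : Fin 2)) x :=
    (EuclideanSpace.proj (𝕜 := ℝ) (0 : Fin 2)).hasFDerivAt
  rw [h.fderiv]
  simp [bv]

/-- A Poincaré inequality in the unit disc. -/
lemma poincare {v : Pl → ℝ} (hv : ContDiff ℝ ∞ v) (hvc : HasCompactSupport v)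
    (hsupp : ∀ x, v x ≠ 0 → |x 0| ≤ 1) :
    ∫ x, v x ^ 2 ≤ 4 * ∫ x, ‖fderiv ℝ v x‖ ^ 2 := by
  have hvv : ContDiff ℝ ∞ (fun y => v y * v y) := hv.mul hv
  have hvvc : HasCompactSupport (fun y => v y * v y) := hvc.mul_right
  have h := ibp (w := bv 0) hvv contDiff_coord hvvc
  simp only [dd_coord, mul_one] at h
  have i1 : Integrable (fun x => v x ^ 2) := by
    have : (fun x => v x ^ 2) = fun x => v x * v x := by ext x; ring
    rw [this]
    exact (hv.continuous.mul hv.continuous).integrable_of_hasCompactSupport hvvc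
  have i2 := integrable_dd_sq (w := bv 0) hv hvc
  have i3 := integrable_dd_sq (w := bv 1) hv hvc
  have h2 : ∫ x, v x ^ 2 ≤ ∫ x, (1 / 2 * v x ^ 2 + 2 * (dd (bv 0) v x) ^ 2) := by
    have e1 : ∫ x, v x ^ 2 = ∫ x, -(dd (bv 0) (fun y => v y * v y) x * x 0) := by
      rw [integral_neg, ← h]
      congr 1; ext x; ring
    rw [e1]
    apply integral_mono
    · exact (((contDiff_dd hvv).continuous.mul contDiff_coord.continuous).integrable_of_hasCompactSupport
        ((compact_dd hvvc).mul_right)).neg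
    · exact (i1.const_mul _).add (i2.const_mul _)
    · intro x
      simp only
      rw [dd_mul hv hv]
      by_cases hx : v x = 0
      · rw [hx]; nlinarith [sq_nonneg (dd (bv 0) v x)]
      · have hx1 := hsupp x hx
        have hx2 : (x 0) ^ 2 ≤ 1 := by
          rw [← sq_abs]; nlinarith [abs_nonneg (x 0)]
        nlinarith [sq_nonneg (v x + 2 * (x 0) * dd (bv 0) v x),
          mul_nonneg (sq_nonneg (dd (bv 0) v x)) (sub_nonneg.2 hx2)]
  rw [integral_add (i1.const_mul _) (i2.const_mul _), integral_const_mul, integral_const_mul] at h2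
  have h3 : ∫ x, (dd (bv 0) v x) ^ 2 ≤ ∫ x, ‖fderiv ℝ v x‖ ^ 2 := by
    apply integral_mono i2
    · have : (fun x => ‖fderiv ℝ v x‖ ^ 2) = fun x => (dd (bv 0) v x) ^ 2 + (dd (bv 1) v x) ^ 2 := by
        ext x; exact norm_fderiv_sq v x
      rw [this]
      exact i2.add i3
    · intro x
      simp only
      rw [norm_fderiv_sq]
      nlinarith [sq_nonneg (dd (bv 1) v x)]
  linarith

end Pool.Agent.X125.TM
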