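import Pool.Agent.X125.TM.Construct

/-!
Weak coercivity, blow-up of the Trudinger-Moser functional, and the Kato condition.
-/

noncomputable section

namespace Pool.Agent.X125.TM

open MeasureTheory Metric Set Filter Topology
open scoped ContDiff

/-- The left half disc `E`. -/
def EE : Set Pl := ball (EuclideanSpace.single 0 (-(1 / 2))) (1 / 4)

lemma EE_coord {x : Pl} (hx : x ∈ EE) : x 0 < 0 := by
  have h1 : dist x (EuclideanSpace.single 0 (-(1 / 2))) < 1 / 4 := hx
  have h2 := (abs_coord_le x (EuclideanSpace.single 0 (-(1 / 2)))).trans_lt h1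
  have h3 : (EuclideanSpace.single 0 (-(1 / 2) : ℝ) : Pl) 0 = -(1 / 2) := by simp
  rw [h3, abs_lt] at h2
  linarith [h2.2]

lemma PsiN_EE (a : ℕ → ℝ) (N : ℕ) {x : Pl} (hx : x ∈ EE) : PsiN a N x = 1 := by
  have h := EE_coord hx
  unfold PsiN
  have : ∑ j ∈ Finset.range N, a j * chi j x = 0 := by
    apply Finset.sum_eq_zero
    intro j _
    have : chi j x = 0 := by
      by_contra hne
      have h1 := (chi_coord hne).1
      have h2 := rho_le j
      linarith
    rw [this, mul_zero]
  rw [this, add_zero]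

lemma vol_EE_pos : 0 < volume.real EE := by
  have h1 : 0 < volume EE := measure_ball_pos _ _ (by norm_num)
  have h2 : volume EE < ⊤ := measure_ball_lt_top
  exact ENNReal.toReal_pos h1.ne' h2.ne

lemma cs_EE {v : Pl → ℝ} (hv : Continuous v) (hvc : HasCompactSupport v) :
    (∫ x in EE, v x) ^ 2 ≤ volume.real EE * ∫ x, v x ^ 2 := by
  have hV := vol_EE_pos
  have i1 : Integrable v := hv.integrable_of_hasCompactSupport hvc
  have i2 : Integrable (fun x => v x ^ 2) := by
    have : (fun x => v x ^ 2) = fun x => v x * v x := by ext x; ring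
    rw [this]
    exact (hv.mul hv).integrable_of_hasCompactSupport hvc.mul_right
  have hfin : volume EE ≠ ⊤ := (measure_ball_lt_top (μ := (volume : Measure Pl))).ne
  set c := (∫ x in EE, v x) / volume.real EE with hc
  have h0 : 0 ≤ ∫ x in EE, (v x - c) ^ 2 := integral_nonneg fun x => sq_nonneg _
  have h1 : ∫ x in EE, (v x - c) ^ 2 =
      (∫ x in EE, v x ^ 2) - 2 * c * (∫ x in EE, v x) + c ^ 2 * volume.real EE := by
    have e : ∀ x, (v x - c) ^ 2 = v x ^ 2 - 2 * c * v x + c ^ 2 := fun x => by ring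
    simp only [e]
    rw [integral_add, integral_sub, integral_const_mul, setIntegral_const]
    · simp; ring
    · exact i2.integrableOn
    · exact (i1.integrableOn).const_mul _
    · exact (i2.integrableOn).sub ((i1.integrableOn).const_mul _)
    · exact integrableOn_const hfin
  have h2 : ∫ x in EE, v x ^ 2 ≤ ∫ x, v x ^ 2 :=
    setIntegral_le_integral i2 (ae_of_all _ fun x => sq_nonneg _)
  rw [h1] at h0
  have h3 : ∫ x in EE, v x = c * volume.real EE := by rw [hc]; field_simp
  rw [h3] at h0 ⊢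
  nlinarith

lemma coercive {a : ℕ → ℝ} (ha : ∀ j, 0 ≤ a j) {u : Pl → ℝ} (hu : Test u) :
    1 / (4 * volume.real EE) * (∫ x in EE, u x) ^ 2 ≤ Q (V a) u := by
  obtain ⟨hu1, hu2, hu3⟩ := hu
  obtain ⟨N, hN⟩ := compact_bound hu2 hu3
  have hV := vol_EE_pos
  set v : Pl → ℝ := fun x => (PsiN a N x)⁻¹ * u x with hvdef
  have hne : ∀ x, PsiN a N x ≠ 0 := fun x => by have := one_le_PsiN ha N x; linarith
  have hv : ContDiff ℝ ∞ v := ((contDiff_PsiN a N).inv hne).mul hu1
  have hvc : HasCompactSupport v := hu2.mul_left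
  have hsub : tsupport v ⊆ tsupport u := tsupport_mul_subset_right
  have huv : u = fun x => PsiN a N x * v x := by
    ext x
    rw [hvdef]
    simp only
    rw [← mul_assoc, mul_inv_cancel₀ (hne x), one_mul]
  have hQ : Q (V a) u = ∫ x, PsiN a N x ^ 2 * ‖fderiv ℝ v x‖ ^ 2 := by
    rw [huv]
    exact Q_eq ha hv hvc (fun x hx => hN x (hsub hx))
  have hfd : Integrable (fun x => ‖fderiv ℝ v x‖ ^ 2) := by
    have : (fun x => ‖fderiv ℝ v x‖ ^ 2) = fun x => (dd (bv 0) v x) ^ 2 + (dd (bv 1) v x) ^ 2 := by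
      ext x; exact norm_fderiv_sq v x
    rw [this]
    exact (integrable_dd_sq hv hvc).add (integrable_dd_sq hv hvc)
  have hint : Integrable (fun x => PsiN a N x ^ 2 * ‖fderiv ℝ v x‖ ^ 2) := by
    apply Continuous.integrable_of_hasCompactSupport
    · exact ((contDiff_PsiN a N).continuous.pow 2).mul
        ((hv.continuous_fderiv (by simp)).norm.pow 2)
    · apply HasCompactSupport.mul_left
      exact (hvc.fderiv (𝕜 := ℝ)).comp_left (g := fun φ : Pl →L[ℝ] ℝ => ‖φ‖ ^ 2) (by simp)
  have h1 : ∫ x, ‖fderiv ℝ v x‖ ^ 2 ≤ Q (V a) u := by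
    rw [hQ]
    apply integral_mono hfd hint
    intro x
    simp only
    have h1 := one_le_PsiN ha N x
    have h2 : 1 ≤ PsiN a N x ^ 2 := one_le_pow₀ h1
    nlinarith [sq_nonneg ‖fderiv ℝ v x‖]
  have h2 := poincare hv hvc (by
    intro x hx
    have hx2 : x ∈ tsupport u := hsub (subset_tsupport v hx)
    have hx3 : ‖x‖ < 1 := by simpa [Om] using hu3 hx2
    calc |x 0| ≤ ‖x‖ := by rw [← Real.norm_eq_abs]; exact PiLp.norm_apply_le x 0
      _ ≤ 1 := hx3.le)
  have h3 := cs_EE hv.continuous hvc
  have h4 : ∫ x in EE, u x = ∫ x in EE, v x := by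
    apply setIntegral_congr_fun measurableSet_ball
    intro x hx
    change u x = (PsiN a N x)⁻¹ * u x
    rw [PsiN_EE a N hx]; simp
  rw [h4]
  have h5 : 1 / (4 * volume.real EE) * (∫ x in EE, v x) ^ 2 ≤
      1 / (4 * volume.real EE) * (volume.real EE * ∫ x, v x ^ 2) := by gcongr
  have h6 : 1 / (4 * volume.real EE) * (volume.real EE * ∫ x, v x ^ 2) = (∫ x, v x ^ 2) / 4 := by
    field_simp
  linarith

/-- The energy of the outer bump. -/
def C (j : ℕ) : ℝ := ∫ x, ‖fderiv ℝ (eta j) x‖ ^ 2

lemma C_nonneg (j : ℕ) : 0 ≤ C j := integral_nonneg fun x => sq_nonneg _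

/-- The normalisation. -/
def tt (j : ℕ) : ℝ := 1 / √(1 + C j)

lemma tt_pos (j : ℕ) : 0 < tt j := by unfold tt; have := C_nonneg j; positivity

lemma tt_sq (j : ℕ) : tt j ^ 2 * C j ≤ 1 := by
  have := C_nonneg j
  unfold tt
  rw [div_pow, Real.sq_sqrt (by positivity), one_pow, one_div, inv_mul_le_iff₀ (by positivity)]
  linarith

/-- The inner ball. -/
def BB (j : ℕ) : Set Pl := ball (ctr j) (rho j / 16)

lemma vol_BB_pos (j : ℕ) : 0 < volume.real (BB j) := by
  have h0 := rho_pos j
  have h1 : 0 < volume (BB j) := measure_ball_pos _ _ (by positivity)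
  have h2 : volume (BB j) < ⊤ := measure_ball_lt_top
  exact ENNReal.toReal_pos h1.ne' h2.ne

/-- The heights. -/
def aa (j : ℕ) : ℝ := (j + 1) / (volume.real (BB j) * (4 * Real.pi * tt j ^ 2))

lemma aa_nonneg (j : ℕ) : 0 ≤ aa j := by
  unfold aa
  have := vol_BB_pos j
  have := tt_pos j
  positivity

/-- The test functions. -/
def uu (j : ℕ) (x : Pl) : ℝ := PsiN aa (j + 1) x * (tt j * eta j x)

lemma tsupport_teta (j : ℕ) : tsupport (fun x => tt j * eta j x) ⊆ closedBall (ctr j) (rho j * (3 / 16)) := by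
  refine (tsupport_mul_subset_right (f := fun _ => tt j) (g := fun x => eta j x)).trans ?_
  rw [(eta j).tsupport_eq]
  exact subset_rfl

lemma norm_of_mem {j : ℕ} {x : Pl} (hx : x ∈ closedBall (ctr j) (rho j * (3 / 16))) :
    ‖x‖ < 1 - 9 / 8 * rho (j + 1) := by
  have h1 : dist x (ctr j) ≤ rho j * (3 / 16) := hx
  have h2 : ‖x‖ ≤ ‖ctr j‖ + dist x (ctr j) := by
    rw [dist_eq_norm]
    calc ‖x‖ = ‖ctr j + (x - ctr j)‖ := by congr 1; abel
      _ ≤ _ := norm_add_le _ _
  rw [norm_ctr] at h2
  have h3 := rho_half (Nat.lt_succ_self j)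
  have h4 := rho_pos j
  have h5 : rho (j + 1) ≤ rho j / 2 := h3
  linarith

lemma contDiff_teta (j : ℕ) : ContDiff ℝ ∞ (fun x => tt j * eta j x) :=
  contDiff_const.mul (eta j).contDiff

lemma compact_teta (j : ℕ) : HasCompactSupport (fun x => tt j * eta j x) :=
  HasCompactSupport.mul_left (f := fun _ => tt j) (eta j).hasCompactSupport

lemma test_uu (j : ℕ) : Test (uu j) := by
  refine ⟨(contDiff_PsiN _ _).mul (contDiff_teta j), (compact_teta j).mul_left, ?_⟩
  intro x hx
  have h1 : x ∈ tsupport (fun x => tt j * eta j x) :=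
    (tsupport_mul_subset_right (f := PsiN aa (j + 1)) (g := fun x => tt j * eta j x)) hx
  have h2 := norm_of_mem (tsupport_teta j h1)
  have h3 := rho_pos (j + 1)
  simp [Om]; linarith

lemma fderiv_teta_zero {j : ℕ} {x : Pl} (hx : dist x (ctr j) < rho j / 8) :
    fderiv ℝ (fun x => tt j * eta j x) x = 0 := by
  have h1 : (eta j : Pl → ℝ) =ᶠ[𝓝 x] 1 := (eta j).eventuallyEq_one_of_mem_ball hx
  have h2 : (fun x => tt j * eta j x) =ᶠ[𝓝 x] fun _ => tt j := by
    filter_upwards [h1] with y hy
    rw [hy]; simp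
  rw [h2.fderiv_eq]
  simp

lemma PsiN_one {j N : ℕ} (a : ℕ → ℝ) {x : Pl} (h1 : dist x (ctr j) ≤ rho j * (3 / 16))
    (h2 : rho j / 8 ≤ dist x (ctr j)) : PsiN a N x = 1 := by
  unfold PsiN
  have : ∑ k ∈ Finset.range N, a k * chi k x = 0 := by
    apply Finset.sum_eq_zero
    intro k _
    have : chi k x = 0 := by
      rcases eq_or_ne k j with rfl | hkj
      · exact (chi k).zero_of_le_dist h2
      · exact chi_disj h1 hkj
    rw [this, mul_zero]
  rw [this, add_zero]

lemma Q_uu (j : ℕ) : Q (V aa) (uu j) ≤ 1 := by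
  have h := Q_eq aa_nonneg (N := j + 1) (contDiff_teta j) (compact_teta j)
    (fun x hx => norm_of_mem (tsupport_teta j hx))
  have h1 : Q (V aa) (uu j) = ∫ x, PsiN aa (j + 1) x ^ 2 * ‖fderiv ℝ (fun x => tt j * eta j x) x‖ ^ 2 := h
  have h2 : ∫ x, PsiN aa (j + 1) x ^ 2 * ‖fderiv ℝ (fun x => tt j * eta j x) x‖ ^ 2 = tt j ^ 2 * C j := by
    unfold C
    rw [← integral_const_mul]
    congr 1
    ext x
    have hd : fderiv ℝ (fun x => tt j * eta j x) x = tt j • fderiv ℝ (eta j) x := by
      have : DifferentiableAt ℝ (eta j : Pl → ℝ) x :=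
        ((eta j).contDiff (n := 1)).differentiable (by simp) x
      exact fderiv_const_mul this (tt j)
    by_cases hx : fderiv ℝ (fun x => tt j * eta j x) x = 0
    · rw [hx]
      rw [hx] at hd
      have hne := (tt_pos j).ne'
      have : fderiv ℝ (eta j) x = 0 := by
        have := hd.symm
        rwa [smul_eq_zero, or_iff_right hne] at this
      rw [this]; simp
    · have hx1 : x ∈ closedBall (ctr j) (rho j * (3 / 16)) := by
        by_contra hnot
        apply hx
        exact fderiv_of_notMem_tsupport ℝ (fun h => hnot (tsupport_teta j h))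
      have hx2 : rho j / 8 ≤ dist x (ctr j) := by
        by_contra hlt
        push Not at hlt
        exact hx (fderiv_teta_zero hlt)
      rw [PsiN_one aa hx1 hx2, hd, norm_smul, mul_pow, Real.norm_eq_abs, sq_abs]
      ring
  rw [h1, h2]
  exact tt_sq j

lemma uu_lower {j : ℕ} {x : Pl} (hx : x ∈ BB j) : tt j * (1 + aa j) ≤ uu j x := by
  have h0 := rho_pos j
  have h1 : dist x (ctr j) < rho j / 16 := hx
  have h2 : eta j x = 1 := (eta j).one_of_mem_closedBall (by
    change dist x (ctr j) ≤ rho j / 8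
    linarith)
  have h3 : chi j x = 1 := (chi j).one_of_mem_closedBall (by
    change dist x (ctr j) ≤ rho j / 16
    linarith)
  have h4 : 1 + aa j ≤ PsiN aa (j + 1) x := by
    unfold PsiN
    have : aa j * chi j x ≤ ∑ k ∈ Finset.range (j + 1), aa k * chi k x :=
      Finset.single_le_sum (f := fun k => aa k * chi k x)
        (fun k _ => mul_nonneg (aa_nonneg k) (chi k).nonneg) (by simp)
    rw [h3, mul_one] at this
    linarith
  unfold uu
  rw [h2, mul_one, mul_comm]
  have := tt_pos j
  gcongr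

lemma integrable_exp (u : Pl → ℝ) (hu : Continuous u) :
    IntegrableOn (fun x => Real.exp (4 * Real.pi * u x ^ 2)) Om := by
  have hc : Continuous (fun x => Real.exp (4 * Real.pi * u x ^ 2)) := by fun_prop
  have h1 : IntegrableOn (fun x => Real.exp (4 * Real.pi * u x ^ 2)) (closedBall (0 : Pl) 1) :=
    hc.continuousOn.integrableOn_compact (isCompact_closedBall _ _)
  exact h1.mono_set ball_subset_closedBall

lemma BB_sub (j : ℕ) : BB j ⊆ Om := by
  intro x hx
  have h0 := rho_pos j
  have h1 : dist x (ctr j) < rho j / 16 := hx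
  have h2 := norm_of_mem (j := j) (x := x) (by
    change dist x (ctr j) ≤ rho j * (3 / 16)
    linarith)
  have h3 := rho_pos (j + 1)
  simp [Om]; linarith

lemma blowup (j : ℕ) : (j : ℝ) < ∫ x in Om, Real.exp (4 * Real.pi * uu j x ^ 2) := by
  have hcont : Continuous (uu j) := (test_uu j).1.continuous
  have hint := integrable_exp (uu j) hcont
  have hv := vol_BB_pos j
  have ht := tt_pos j
  have ha := aa_nonneg j
  have hpi := Real.pi_pos
  set E0 := Real.exp (4 * Real.pi * (tt j * (1 + aa j)) ^ 2) with hE0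
  have h1 : ∫ x in BB j, Real.exp (4 * Real.pi * uu j x ^ 2) ≤
      ∫ x in Om, Real.exp (4 * Real.pi * uu j x ^ 2) := by
    apply setIntegral_mono_set hint
    · exact ae_of_all _ fun x => (Real.exp_pos _).le
    · exact (BB_sub j).eventuallyLE
  have h2 : volume.real (BB j) * E0 ≤ ∫ x in BB j, Real.exp (4 * Real.pi * uu j x ^ 2) := by
    have e : ∫ x in BB j, E0 = volume.real (BB j) * E0 := by
      rw [setIntegral_const, smul_eq_mul]
    rw [← e]
    apply setIntegral_mono_on
    · exact integrableOn_const (measure_ball_lt_top (μ := (volume : Measure Pl))).ne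
    · exact hint.mono_set (BB_sub j)
    · exact measurableSet_ball
    · intro x hx
      rw [hE0, Real.exp_le_exp]
      have := uu_lower hx
      have h0 : 0 ≤ tt j * (1 + aa j) := by positivity
      gcongr
  have h3 : 4 * Real.pi * tt j ^ 2 * aa j ≤ E0 := by
    have h4 := Real.add_one_le_exp (4 * Real.pi * (tt j * (1 + aa j)) ^ 2)
    have h5 : 4 * Real.pi * tt j ^ 2 * aa j ≤ 4 * Real.pi * (tt j * (1 + aa j)) ^ 2 := by
      have : aa j ≤ (1 + aa j) ^ 2 := by nlinarith
      calc 4 * Real.pi * tt j ^ 2 * aa j ≤ 4 * Real.pi * tt j ^ 2 * (1 + aa j) ^ 2 := by gcongr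
        _ = _ := by ring
    rw [hE0]; linarith
  have h4 : volume.real (BB j) * (4 * Real.pi * tt j ^ 2 * aa j) = j + 1 := by
    unfold aa
    field_simp
  have h5 : volume.real (BB j) * (4 * Real.pi * tt j ^ 2 * aa j) ≤ volume.real (BB j) * E0 := by gcongr
  linarith

/-- The logarithmic kernel. -/
def logk (z : Pl) : ENNReal := ENNReal.ofReal (Real.log (1 / ‖z‖))

lemma lintegral_logk : ∫⁻ z in ball (0 : Pl) 1, logk z ≠ ⊤ := by
  have h1 : Integrable (fun z : Pl => (Set.indicator (Iio 1) (fun y : ℝ => y⁻¹)) ‖z‖) := by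
    have h := integrable_fun_norm_addHaar (E := Pl) (volume : Measure Pl)
      (f := Set.indicator (Iio 1) (fun y : ℝ => y⁻¹))
    rw [h]
    have hfr : Module.finrank ℝ Pl = 2 := by simp
    rw [hfr]
    have h2 : IntegrableOn (Set.indicator (Ioo (0 : ℝ) 1) (fun _ => (1 : ℝ))) (Ioi 0) := by
      apply Integrable.integrableOn
      rw [integrable_indicator_iff measurableSet_Ioo]
      exact integrableOn_const (by simp)
    refine h2.congr_fun ?_ measurableSet_Ioi
    intro y hy
    have hy0 : (0 : ℝ) < y := hy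
    by_cases hy1 : y < 1
    · simp [Set.indicator, hy0, hy1, hy0.ne']
    · simp [Set.indicator, hy1]
  have h2 : ∫⁻ z in ball (0 : Pl) 1, logk z ≤
      ∫⁻ z : Pl, ENNReal.ofReal ((Set.indicator (Iio 1) (fun y : ℝ => y⁻¹)) ‖z‖) := by
    rw [← lintegral_indicator measurableSet_ball]
    apply lintegral_mono
    intro z
    by_cases hz : z ∈ ball (0 : Pl) 1
    · rw [Set.indicator_of_mem hz]
      have hz1 : ‖z‖ < 1 := by simpa using hz
      change logk z ≤ ENNReal.ofReal ((Set.indicator (Iio 1) (fun y : ℝ => y⁻¹)) ‖z‖)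
      rw [Set.indicator_of_mem (show ‖z‖ ∈ Iio (1 : ℝ) from hz1)]
      unfold logk
      apply ENNReal.ofReal_le_ofReal
      rcases eq_or_lt_of_le (norm_nonneg z) with h0 | h0
      · rw [← h0]; simp
      · have := Real.log_le_sub_one_of_pos (show 0 < 1 / ‖z‖ by positivity)
        rw [one_div] at this ⊢
        linarith
    · rw [Set.indicator_of_notMem hz]
      exact bot_le
  have h3 : ∫⁻ z : Pl, ENNReal.ofReal ((Set.indicator (Iio 1) (fun y : ℝ => y⁻¹)) ‖z‖) < ⊤ :=
    h1.lintegral_lt_top
  exact (h2.trans_lt h3).ne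

lemma logk_small {η : ENNReal} (hη : 0 < η) : ∃ δ > 0, δ < 1 ∧ ∀ r : ℝ, r ≤ δ →
    ∫⁻ z in ball (0 : Pl) r, logk z ≤ η := by
  have hl : Tendsto (fun n : ℕ => (volume : Measure Pl).restrict (ball 0 1) (ball (0 : Pl) (1 / (n + 2)))) atTop (𝓝 0) := by
    have h1 : Tendsto (fun n : ℕ => (volume : Measure Pl) (ball (0 : Pl) (1 / ((n : ℝ) + 2)))) atTop (𝓝 0) := by
      have h2 : ∀ n : ℕ, (volume : Measure Pl) (ball (0 : Pl) (1 / ((n : ℝ) + 2))) =
          ENNReal.ofReal ((1 / ((n : ℝ) + 2)) ^ 2) * volume (ball (0 : Pl) 1) := by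
        intro n
        have := Measure.addHaar_ball (volume : Measure Pl) (0 : Pl) (show (0 : ℝ) ≤ 1 / ((n : ℝ) + 2) by positivity)
        rw [this]
        simp
      simp only [h2]
      have h3 : Tendsto (fun n : ℕ => ENNReal.ofReal ((1 / ((n : ℝ) + 2)) ^ 2)) atTop (𝓝 0) := by
        rw [← ENNReal.ofReal_zero]
        apply ENNReal.tendsto_ofReal
        have h4 : Tendsto (fun n : ℕ => 1 / ((n : ℝ) + 2)) atTop (𝓝 0) := by
          have := tendsto_const_div_atTop_nhds_zero_nat (1 : ℝ)
          have h5 := (tendsto_add_atTop_iff_nat 2).2 this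
          simpa using h5
        simpa using h4.pow 2
      have h6 := ENNReal.Tendsto.mul_const (b := volume (ball (0 : Pl) 1)) h3
        (Or.inr (measure_ball_lt_top (μ := (volume : Measure Pl))).ne)
      simpa using h6
    refine tendsto_of_tendsto_of_tendsto_of_le_of_le tendsto_const_nhds h1 (fun n => bot_le) ?_
    intro n
    exact Measure.restrict_apply_le _ _
  have h := tendsto_setLIntegral_zero (μ := (volume : Measure Pl).restrict (ball 0 1)) (f := logk)
    lintegral_logk hl
  obtain ⟨n, hn⟩ := (h.eventually (gt_mem_nhds hη)).exists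
  refine ⟨1 / ((n : ℝ) + 2), by positivity, ?_, ?_⟩
  · rw [div_lt_one (by positivity)]
    have : (0 : ℝ) ≤ n := by positivity
    linarith
  · intro r hr
    have hsub : ball (0 : Pl) r ⊆ ball 0 (1 / ((n : ℝ) + 2)) := ball_subset_ball hr
    have hsub2 : ball (0 : Pl) (1 / ((n : ℝ) + 2)) ⊆ ball 0 1 := by
      apply ball_subset_ball
      rw [div_le_one (by positivity)]
      have : (0 : ℝ) ≤ n := by positivity
      linarith
    calc ∫⁻ z in ball (0 : Pl) r, logk z ≤ ∫⁻ z in ball (0 : Pl) (1 / ((n : ℝ) + 2)), logk z :=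
          lintegral_mono_set hsub
      _ = ∫⁻ z in ball (0 : Pl) (1 / ((n : ℝ) + 2)), logk z ∂((volume : Measure Pl).restrict (ball 0 1)) := by
          rw [Measure.restrict_restrict measurableSet_ball, Set.inter_eq_left.2 hsub2]
      _ ≤ η := hn.le

/-- The local Kato condition. -/
lemma kato {W : Pl → ℝ} (hW : ContinuousOn W Om) {K : Set Pl} (hK : IsCompact K) (hKO : K ⊆ Om) {ε : ℝ}
    (hε : 0 < ε) : ∃ δ > 0, δ < 1 ∧ ∀ r, 0 < r → r ≤ δ → ∀ x : Pl,
      ∫⁻ y in K ∩ ball x r, ENNReal.ofReal (Real.log (1 / dist x y) * |W y|) ≤ ENNReal.ofReal ε := by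
  obtain ⟨B, hB⟩ : ∃ B : ℝ, ∀ y ∈ K, |W y| ≤ B := by
    obtain ⟨B, hB⟩ := hK.exists_bound_of_continuousOn (hW.mono hKO)
    exact ⟨B, fun y hy => by simpa [Real.norm_eq_abs] using hB y hy⟩
  set B' := max B 1 with hB'
  have hB'0 : 0 < B' := lt_of_lt_of_le one_pos (le_max_right _ _)
  obtain ⟨δ, hδ, hδ1, hsm⟩ := logk_small (η := ENNReal.ofReal (ε / B')) (by
    rw [ENNReal.ofReal_pos]; positivity)
  refine ⟨δ, hδ, hδ1, fun r hr0 hr x => ?_⟩
  have hmeas : Measurable logk := by
    unfold logk
    exact (Real.measurable_log.comp (measurable_const.div measurable_norm)).ennreal_ofReal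
  calc ∫⁻ y in K ∩ ball x r, ENNReal.ofReal (Real.log (1 / dist x y) * |W y|)
      ≤ ∫⁻ y in K ∩ ball x r, ENNReal.ofReal B' * logk (x - y) := by
        apply setLIntegral_mono' (hK.measurableSet.inter measurableSet_ball)
        intro y hy
        have hy1 := hB y hy.1
        have hy2 : dist y x < r := hy.2
        have hlog : 0 ≤ Real.log (1 / dist x y) := by
          rcases eq_or_lt_of_le (dist_nonneg (x := x) (y := y)) with h0 | h0
          · rw [← h0]; simp
          · apply Real.log_nonneg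
            rw [le_div_iff₀ h0, one_mul, dist_comm]
            linarith
        unfold logk
        rw [← ENNReal.ofReal_mul hB'0.le, ← dist_eq_norm]
        apply ENNReal.ofReal_le_ofReal
        rw [mul_comm]
        have : |W y| ≤ B' := hy1.trans (le_max_left _ _)
        gcongr
    _ ≤ ∫⁻ y in ball x r, ENNReal.ofReal B' * logk (x - y) := lintegral_mono_set inter_subset_right
    _ = ENNReal.ofReal B' * ∫⁻ y in ball x r, logk (x - y) := by
        rw [lintegral_const_mul]
        exact hmeas.comp (measurable_const.sub measurable_id)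
    _ = ENNReal.ofReal B' * ∫⁻ z in ball (0 : Pl) r, logk z := by
        congr 1
        rw [← lintegral_indicator measurableSet_ball, ← lintegral_indicator measurableSet_ball]
        rw [← lintegral_sub_left_eq_self (fun z => (ball (0 : Pl) r).indicator logk z) x]
        congr 1
        ext y
        by_cases hy : y ∈ ball x r
        · have hy' : x - y ∈ ball (0 : Pl) r := by
            simp only [mem_ball, dist_zero_right]
            rw [← dist_eq_norm, dist_comm]; exact hy
          rw [indicator_of_mem hy, indicator_of_mem hy']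
        · have hy' : x - y ∉ ball (0 : Pl) r := by
            intro h
            apply hy
            simp only [mem_ball, dist_zero_right] at h
            rw [← dist_eq_norm, dist_comm] at h; exact h
          rw [indicator_of_notMem hy, indicator_of_notMem hy']
    _ ≤ ENNReal.ofReal B' * ENNReal.ofReal (ε / B') := by gcongr; exact hsm r hr
    _ = ENNReal.ofReal ε := by
        rw [← ENNReal.ofReal_mul hB'0.le]
        congr 1
        field_simp

end Pool.Agent.X125.TM
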